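import Mathlib

/-!
# MP_725208_co: counting colourings, monotone moves

`Good A h O T f`: every vertex `u` whose pair `(u, f u)` belongs to `O` has at most `h`
out-neighbours `z` of its own colour with `(z, f u) ∈ T`.
-/

namespace Pool.Agent.Lib.MP_725208_co

open Finset

variable {V : Type*} [Fintype V] [DecidableEq V]

/-- number of active out-neighbours of `w` coloured `c` -/
def cnt (A : V → V → Prop) [DecidableRel A] (T : Finset (V × Fin 3)) (f : V → Fin 3) (w : V)
    (c : Fin 3) : ℕ :=
  (univ.filter (fun z => A w z ∧ (z, c) ∈ T ∧ f z = c)).card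

/-- the colouring respects the active constraints -/
def Good (A : V → V → Prop) [DecidableRel A] (h : ℕ) (O T : Finset (V × Fin 3))
    (f : V → Fin 3) : Prop :=
  ∀ u, (u, f u) ∈ O → cnt A T f u (f u) ≤ h

instance (A : V → V → Prop) [DecidableRel A] (h : ℕ) (O T : Finset (V × Fin 3)) :
    DecidablePred (Good A h O T) := fun f => by
  unfold Good
  infer_instance

/-- the number of colourings respecting the active constraints -/
def g (A : V → V → Prop) [DecidableRel A] (h : ℕ) (O T : Finset (V × Fin 3)) : ℕ :=
  (univ.filter (fun f => Good A h O T f)).card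

variable (A : V → V → Prop) [DecidableRel A] (h : ℕ)

omit [Fintype V] in
theorem cnt_mono_aux {T' T : Finset (V × Fin 3)} (hT : T' ⊆ T) {z : V} {c : Fin 3}
    (hz : (z, c) ∈ T') : (z, c) ∈ T := hT hz

theorem good_mono {O' O T' T : Finset (V × Fin 3)} (hO : O' ⊆ O) (hT : T' ⊆ T)
    {f : V → Fin 3} (hf : Good A h O T f) : Good A h O' T' f := by
  intro u hu
  refine le_trans (card_le_card ?_) (hf u (hO hu))
  intro z hz
  simp only [mem_filter, mem_univ, true_and] at hz ⊢
  exact ⟨hz.1, hT hz.2.1, hz.2.2⟩

/-- `z` is only constrained through the colour `c` -/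
def Free (O T : Finset (V × Fin 3)) (c : Fin 3) (z : V) : Prop :=
  ∀ b, b ≠ c → (z, b) ∉ T ∧ (z, b) ∉ O

theorem good_move {O T : Finset (V × Fin 3)} {c b : Fin 3} {z : V} {f : V → Fin 3}
    (hf : Good A h O T f) (hz : Free O T c z) (hc : f z = c) (hb : b ≠ c) :
    Good A h O T (Function.update f z b) := by
  intro u hu
  by_cases huz : u = z
  · subst huz
    simp only [Function.update_self] at hu
    exact absurd hu (hz b hb).2
  · have h1 : Function.update f z b u = f u := by simp [Function.update_of_ne huz]
    rw [h1] at hu ⊢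
    refine le_trans (card_le_card ?_) (hf u hu)
    intro y hy
    simp only [mem_filter, mem_univ, true_and] at hy ⊢
    refine ⟨hy.1, hy.2.1, ?_⟩
    by_cases hyz : y = z
    · subst hyz
      exfalso
      have h2 := hy.2.2
      simp only [Function.update_self] at h2
      exact (hz b hb).1 (h2 ▸ hy.2.1)
    · have := hy.2.2
      rwa [Function.update_of_ne hyz] at this

theorem third {O T : Finset (V × Fin 3)} {c : Fin 3} {z : V} (hz : Free O T c z)
    (E : (V → Fin 3) → Prop) [DecidablePred E] (hE : ∀ f b, E f → E (Function.update f z b)) :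
    3 * (univ.filter (fun f => Good A h O T f ∧ E f ∧ f z = c)).card
      ≤ (univ.filter (fun f => Good A h O T f ∧ E f)).card := by
  have h1 : ((univ.filter (fun f => Good A h O T f ∧ E f ∧ f z = c)) ×ˢ
      (univ : Finset (Fin 3))).card
      ≤ (univ.filter (fun f => Good A h O T f ∧ E f)).card := by
    apply card_le_card_of_injOn (fun p => Function.update p.1 z p.2)
    · rintro ⟨f, b⟩ hp
      simp only [coe_product, coe_filter, mem_univ, true_and, Set.mem_prod, Set.mem_ofPred_eq]
        at hp ⊢
      obtain ⟨⟨hg, he, hc⟩, -⟩ := hp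
      refine ⟨?_, hE f b he⟩
      by_cases hb : b = c
      · subst hb
        rw [← hc, Function.update_eq_self]
        exact hg
      · exact good_move A h hg hz hc hb
    · rintro ⟨f, b⟩ hp ⟨f', b'⟩ hp' heq
      simp only [coe_product, coe_filter, mem_univ, true_and, Set.mem_prod, Set.mem_ofPred_eq]
        at hp hp'
      simp only at heq
      have hb : b = b' := by
        have := congrFun heq z
        simpa using this
      have hff : f = f' := by
        funext y
        by_cases hy : y = z
        · subst hy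
          rw [hp.1.2.2, hp'.1.2.2]
        · have := congrFun heq y
          rwa [Function.update_of_ne hy, Function.update_of_ne hy] at this
      rw [hb, hff]
  rw [card_product] at h1
  simpa [mul_comm] using h1

/-- number of elements of `Y` coloured `c` -/
def lev (Y : Finset V) (c : Fin 3) (f : V → Fin 3) : ℕ := (Y.filter (fun z => f z = c)).card

/-- good colourings with a given level -/
def Lv (O T : Finset (V × Fin 3)) (Y : Finset V) (c : Fin 3) (j : ℕ) : Finset (V → Fin 3) :=
  univ.filter (fun f => Good A h O T f ∧ lev Y c f = j)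

theorem lev_update {Y : Finset V} {c b : Fin 3} {f : V → Fin 3} {z : V} (hzY : z ∈ Y)
    (hz : f z = c) (hb : b ≠ c) : lev Y c (Function.update f z b) + 1 = lev Y c f := by
  unfold lev
  have h1 : Y.filter (fun y => f y = c) =
      insert z (Y.filter (fun y => Function.update f z b y = c)) := by
    ext y
    simp only [mem_filter, mem_insert]
    by_cases hy : y = z
    · subst hy
      simp [hz, hzY]
    · simp [Function.update_of_ne hy, hy]
  rw [h1, card_insert_of_notMem]
  simp [hb]

theorem level_step {O T : Finset (V × Fin 3)} {c : Fin 3} {Y : Finset V}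
    (hY : ∀ z ∈ Y, Free O T c z) (j : ℕ) :
    2 * (j + 1) * (Lv A h O T Y c (j + 1)).card ≤ (Y.card - j) * (Lv A h O T Y c j).card := by
  classical
  set P : Finset ((V → Fin 3) × V × Fin 3) :=
    (Lv A h O T Y c (j + 1) ×ˢ (Y ×ˢ (univ : Finset (Fin 3)))).filter
      (fun p => p.1 p.2.1 = c ∧ p.2.2 ≠ c) with hP
  set Q : Finset ((V → Fin 3) × V) :=
    (Lv A h O T Y c j ×ˢ Y).filter (fun p => p.1 p.2 ≠ c) with hQ
  have hPc : P.card = 2 * (j + 1) * (Lv A h O T Y c (j + 1)).card := by
    have : P.card = ∑ f ∈ Lv A h O T Y c (j + 1),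
        ((Y ×ˢ (univ : Finset (Fin 3))).filter (fun q => f q.1 = c ∧ q.2 ≠ c)).card := by
      rw [hP, card_filter, sum_product]
      refine sum_congr rfl fun f _ => ?_
      rw [card_filter]
    rw [this, sum_const_nat (m := 2 * (j + 1))]
    · ring
    · intro f hf
      have h2 : (Y ×ˢ (univ : Finset (Fin 3))).filter (fun q => f q.1 = c ∧ q.2 ≠ c)
          = (Y.filter (fun z => f z = c)) ×ˢ (univ.filter (fun b => b ≠ c)) := by
        ext q
        simp only [mem_filter, mem_product, mem_univ, and_true, true_and]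
        tauto
      rw [h2, card_product]
      have h3 : (Y.filter (fun z => f z = c)).card = j + 1 := by
        have := (mem_filter.1 hf).2.2
        exact this
      have h4 : (univ.filter (fun b : Fin 3 => b ≠ c)).card = 2 := by
        fin_cases c <;> decide
      rw [h3, h4]
      ring
  have hQc : Q.card = (Y.card - j) * (Lv A h O T Y c j).card := by
    have : Q.card = ∑ f ∈ Lv A h O T Y c j, (Y.filter (fun z => f z ≠ c)).card := by
      rw [hQ, card_filter, sum_product]
      refine sum_congr rfl fun f _ => ?_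
      rw [card_filter]
    rw [this, sum_const_nat (m := Y.card - j)]
    · ring
    · intro f hf
      have h3 : (Y.filter (fun z => f z = c)).card = j := (mem_filter.1 hf).2.2
      have h4 := card_filter_add_card_filter_not (s := Y) (fun z => f z = c)
      simp only [ne_eq]
      omega
  rw [← hPc, ← hQc]
  apply card_le_card_of_injOn (fun p => (Function.update p.1 p.2.1 p.2.2, p.2.1))
  · rintro ⟨f, z, b⟩ hp
    simp only [hP, hQ, Lv, coe_filter, mem_product, mem_filter, mem_univ, true_and, and_true,
      Set.mem_ofPred_eq] at hp ⊢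
    obtain ⟨⟨⟨hg, hl⟩, hzY⟩, hzc, hbc⟩ := hp
    refine ⟨⟨⟨good_move A h hg (hY z hzY) hzc hbc, ?_⟩, hzY⟩, ?_⟩
    · have := lev_update (f := f) hzY hzc hbc
      omega
    · simpa using hbc
  · rintro ⟨f, z, b⟩ hp ⟨f', z', b'⟩ hp' heq
    simp only [hP, Lv, coe_filter, mem_product, mem_filter, mem_univ, true_and, and_true,
      Set.mem_ofPred_eq] at hp hp'
    simp only [Prod.mk.injEq] at heq
    obtain ⟨h1, h2⟩ := heq
    subst h2
    have hb : b = b' := by
      have := congrFun h1 z
      simpa using this
    have hff : f = f' := by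
      funext y
      by_cases hy : y = z
      · subst hy
        rw [hp.2.1, hp'.2.1]
      · have := congrFun h1 y
        rwa [Function.update_of_ne hy, Function.update_of_ne hy] at this
    rw [hb, hff]

/-- comparison with the binomial weights `b m j = C(m, j) 2 ^ (m - j)` -/
def bw (m j : ℕ) : ℕ := m.choose j * 2 ^ (m - j)

theorem bw_step (m j : ℕ) (hj : j < m) : 2 * (j + 1) * bw m (j + 1) = (m - j) * bw m j := by
  unfold bw
  have h1 : m.choose (j + 1) * (j + 1) = m.choose j * (m - j) := Nat.choose_succ_right_eq m j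
  have h2 : 2 ^ (m - j) = 2 * 2 ^ (m - (j + 1)) := by
    rw [← pow_succ']
    congr 1
    omega
  rw [h2]
  calc 2 * (j + 1) * (m.choose (j + 1) * 2 ^ (m - (j + 1)))
      = 2 * (m.choose (j + 1) * (j + 1)) * 2 ^ (m - (j + 1)) := by ring
    _ = 2 * (m.choose j * (m - j)) * 2 ^ (m - (j + 1)) := by rw [h1]
    _ = _ := by ring

theorem level_down {O T : Finset (V × Fin 3)} {c : Fin 3} {Y : Finset V}
    (hY : ∀ z ∈ Y, Free O T c z) {m : ℕ} (hm : Y.card ≤ m) (hhm : h ≤ m) (i : ℕ) (hi : i ≤ h) :
    (Lv A h O T Y c h).card * bw m (h - i) ≤ (Lv A h O T Y c (h - i)).card * bw m h := by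
  induction i with
  | zero => simp
  | succ i ih =>
    have ih' := ih (by omega)
    obtain ⟨j, hj⟩ : ∃ j, h - (i + 1) = j ∧ h - i = j + 1 := ⟨h - (i + 1), rfl, by omega⟩
    rw [hj.2] at ih'
    rw [hj.1]
    have hjm : j < m := by omega
    have e1 := bw_step m j hjm
    have e2 := level_step A h hY j
    have e3 : (Y.card - j) * (Lv A h O T Y c j).card ≤ (m - j) * (Lv A h O T Y c j).card :=
      Nat.mul_le_mul_right _ (by omega)
    have hpos : 0 < m - j := by omega
    refine Nat.le_of_mul_le_mul_left ?_ hpos
    calc (m - j) * ((Lv A h O T Y c h).card * bw m j)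
        = (Lv A h O T Y c h).card * ((m - j) * bw m j) := by ring
      _ = (Lv A h O T Y c h).card * (2 * (j + 1) * bw m (j + 1)) := by rw [e1]
      _ = 2 * (j + 1) * ((Lv A h O T Y c h).card * bw m (j + 1)) := by ring
      _ ≤ 2 * (j + 1) * ((Lv A h O T Y c (j + 1)).card * bw m h) :=
          Nat.mul_le_mul_left _ ih'
      _ = (2 * (j + 1) * (Lv A h O T Y c (j + 1)).card) * bw m h := by ring
      _ ≤ ((m - j) * (Lv A h O T Y c j).card) * bw m h :=
          Nat.mul_le_mul_right _ (le_trans e2 e3)
      _ = (m - j) * ((Lv A h O T Y c j).card * bw m h) := by ring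

theorem lv_disj (O T : Finset (V × Fin 3)) (c : Fin 3) (Y : Finset V) (s : Finset ℕ) :
    (univ.filter (fun f => Good A h O T f ∧ lev Y c f ∈ s)).card
      = ∑ j ∈ s, (Lv A h O T Y c j).card := by
  classical
  have : univ.filter (fun f => Good A h O T f ∧ lev Y c f ∈ s)
      = s.biUnion (fun j => Lv A h O T Y c j) := by
    ext f
    simp only [mem_filter, mem_univ, true_and, mem_biUnion, Lv]
    constructor
    · rintro ⟨h1, h2⟩
      exact ⟨_, h2, h1, rfl⟩
    · rintro ⟨j, hj, h1, rfl⟩
      exact ⟨h1, hj⟩
  rw [this, card_biUnion]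
  intro i _ j _ hij
  refine disjoint_left.2 fun f hf hf' => hij ?_
  rw [← (mem_filter.1 hf).2.2, ← (mem_filter.1 hf').2.2]

/-- weights above the threshold -/
theorem bw_tail {m : ℕ} (hm : m ≤ 2 * h + 1) (n : ℕ) (hn : h ≤ n) :
    ∑ j ∈ Ioc h n, bw m j + bw m n ≤ bw m h := by
  induction n, hn using Nat.le_induction with
  | base => simp
  | succ n hn ih =>
    rw [← insert_Ioc_right_eq_Ioc_add_one (by omega), sum_insert (by simp)]
    have : 2 * bw m (n + 1) ≤ bw m n := by
      by_cases hnm : n < m
      · have e := bw_step m n hnm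
        have h1 : (m - n) * bw m n ≤ (n + 1) * bw m n := Nat.mul_le_mul_right _ (by omega)
        have h2 : (n + 1) * (2 * bw m (n + 1)) ≤ (n + 1) * bw m n := by
          calc (n + 1) * (2 * bw m (n + 1)) = 2 * (n + 1) * bw m (n + 1) := by ring
            _ = (m - n) * bw m n := e
            _ ≤ _ := h1
        exact Nat.le_of_mul_le_mul_left h2 (by omega)
      · have : bw m (n + 1) = 0 := by
          unfold bw
          rw [Nat.choose_eq_zero_of_lt (by omega)]
          simp
        omega
    omega

theorem lv_tail {O T : Finset (V × Fin 3)} {c : Fin 3} {Y : Finset V}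
    (hY : ∀ z ∈ Y, Free O T c z) (hm : Y.card ≤ 2 * h + 1) (n : ℕ) (hn : h ≤ n) :
    ∑ j ∈ Ioc h n, (Lv A h O T Y c j).card + (Lv A h O T Y c n).card
      ≤ (Lv A h O T Y c h).card := by
  induction n, hn using Nat.le_induction with
  | base => simp
  | succ n hn ih =>
    rw [← insert_Ioc_right_eq_Ioc_add_one (by omega), sum_insert (by simp)]
    have : 2 * (Lv A h O T Y c (n + 1)).card ≤ (Lv A h O T Y c n).card := by
      have e := level_step A h hY n
      have h1 : (Y.card - n) * (Lv A h O T Y c n).card ≤ (n + 1) * (Lv A h O T Y c n).card :=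
        Nat.mul_le_mul_right _ (by omega)
      have h2 : (n + 1) * (2 * (Lv A h O T Y c (n + 1)).card)
          ≤ (n + 1) * (Lv A h O T Y c n).card := by
        calc (n + 1) * (2 * (Lv A h O T Y c (n + 1)).card)
            = 2 * (n + 1) * (Lv A h O T Y c (n + 1)).card := by ring
          _ ≤ _ := le_trans e h1
      exact Nat.le_of_mul_le_mul_left h2 (by omega)
    omega

/-- total weight -/
theorem bw_sum (m : ℕ) : ∑ j ∈ range (m + 1), bw m j = 3 ^ m := by
  have := add_pow 1 2 m
  simp only [one_pow, one_mul] at this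
  norm_num at this
  rw [this]
  exact sum_congr rfl fun j _ => by unfold bw; ring

theorem bw_low {m : ℕ} (hhm : h ≤ m) (hm : m ≤ 2 * h + 1) :
    3 ^ m ≤ ∑ j ∈ range (h + 1), bw m j + bw m h := by
  have h1 := bw_sum m
  have h2 : range (m + 1) = range (h + 1) ∪ Ioc h m := by
    ext j
    simp only [mem_range, mem_union, mem_Ioc]
    omega
  have h3 : Disjoint (range (h + 1)) (Ioc h m) := by
    refine disjoint_left.2 fun j hj hj' => ?_
    simp only [mem_range, mem_Ioc] at hj hj'
    omega
  rw [h2, sum_union h3] at h1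
  have := bw_tail h hm m hhm
  omega

/-- the fraction of good colourings with exactly `h` vertices of colour `c` in `Y` -/
theorem lv_bound {O T : Finset (V × Fin 3)} {c : Fin 3} {Y : Finset V}
    (hY : ∀ z ∈ Y, Free O T c z) {m : ℕ} (hm : Y.card ≤ m) (hhm : h ≤ m) (hm2 : m ≤ 2 * h + 1) :
    (Lv A h O T Y c h).card * 3 ^ m ≤ bw m h * (g A h O T + (Lv A h O T Y c h).card) := by
  have h1 : (Lv A h O T Y c h).card * ∑ j ∈ range (h + 1), bw m j
      ≤ bw m h * ∑ j ∈ range (h + 1), (Lv A h O T Y c j).card := by
    rw [mul_sum, mul_sum]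
    refine sum_le_sum fun j hj => ?_
    have hj' : j ≤ h := by
      simp only [mem_range] at hj
      omega
    have := level_down A h hY hm hhm (h - j) (by omega)
    rw [show h - (h - j) = j by omega] at this
    rw [mul_comm (bw m h)]
    exact this
  have h2 : ∑ j ∈ range (h + 1), (Lv A h O T Y c j).card ≤ g A h O T := by
    rw [← lv_disj]
    unfold g
    refine card_le_card fun f hf => ?_
    simp only [mem_filter, mem_univ, true_and] at hf ⊢
    exact hf.1
  have h3 := bw_low h hhm hm2
  calc (Lv A h O T Y c h).card * 3 ^ m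
      ≤ (Lv A h O T Y c h).card * (∑ j ∈ range (h + 1), bw m j + bw m h) :=
        Nat.mul_le_mul_left _ h3
    _ = (Lv A h O T Y c h).card * ∑ j ∈ range (h + 1), bw m j
        + bw m h * (Lv A h O T Y c h).card := by ring
    _ ≤ bw m h * g A h O T + bw m h * (Lv A h O T Y c h).card := by
        refine Nat.add_le_add_right (le_trans h1 (Nat.mul_le_mul_left _ h2)) _
    _ = _ := by ring

/-- colourings above the threshold -/
theorem lv_above {O T : Finset (V × Fin 3)} {c : Fin 3} {Y : Finset V}
    (hY : ∀ z ∈ Y, Free O T c z) (hm : Y.card ≤ 2 * h + 1) :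
    (univ.filter (fun f => Good A h O T f ∧ h < lev Y c f)).card
      ≤ (Lv A h O T Y c h).card := by
  have h1 : univ.filter (fun f => Good A h O T f ∧ h < lev Y c f)
      = univ.filter (fun f => Good A h O T f ∧ lev Y c f ∈ Ioc h (max h Y.card)) := by
    ext f
    simp only [mem_filter, mem_univ, true_and, mem_Ioc]
    have : lev Y c f ≤ Y.card := card_filter_le _ _
    constructor
    · rintro ⟨a, b⟩
      exact ⟨a, b, le_trans this (le_max_right _ _)⟩
    · rintro ⟨a, b, -⟩
      exact ⟨a, b⟩
  rw [h1, lv_disj]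
  have := lv_tail A h hY hm (max h Y.card) (le_max_left _ _)
  omega

end Pool.Agent.Lib.MP_725208_co
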