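import Pool.Agent.Lib.MP_725208_co.Num

/-!
# MP_725208_co: the numerical condition holds for `k ≥ 108` and for even `k ≥ 102`
-/

namespace Pool.Agent.Lib.MP_725208_co

open Finset

theorem exp_bound (k : ℕ) : (0.36787 : ℝ) ≤ (1 - 1 / (2 * (k : ℝ) + 3)) ^ (2 * (k + 1)) := by
  set N : ℕ := 2 * (k + 1) with hN
  have hNr : (N : ℝ) = 2 * k + 2 := by rw [hN]; push_cast; ring
  have hNpos : (0 : ℝ) < N := by rw [hNr]; positivity
  have h1 : (1 : ℝ) - 1 / (2 * (k : ℝ) + 3) = (1 + 1 / (N : ℝ))⁻¹ := by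
    rw [hNr]
    field_simp
    ring
  have h2 : (1 + 1 / (N : ℝ)) ^ N ≤ Real.exp 1 := by
    have h3 : 1 + 1 / (N : ℝ) ≤ Real.exp (1 / N) := by
      have := Real.add_one_le_exp (1 / (N : ℝ))
      linarith
    calc (1 + 1 / (N : ℝ)) ^ N ≤ (Real.exp (1 / N)) ^ N :=
          pow_le_pow_left₀ (by positivity) h3 N
      _ = Real.exp (N * (1 / N)) := by rw [← Real.exp_nat_mul]
      _ = Real.exp 1 := by
          congr 1
          field_simp
  rw [h1, inv_pow]
  have h4 := Real.exp_one_lt_d9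
  have h5 : (0 : ℝ) < (1 + 1 / (N : ℝ)) ^ N := by positivity
  have h6 : (1 + 1 / (N : ℝ)) ^ N ≤ 2.7182818286 := by linarith
  calc (0.36787 : ℝ) ≤ (2.7182818286 : ℝ)⁻¹ := by norm_num
    _ ≤ _ := inv_anti₀ h5 h6

theorem cc_anti {m n : ℕ} (hmn : m ≤ n) : cc n ≤ cc m := by
  induction n, hmn using Nat.le_induction with
  | base => exact le_rfl
  | succ n hn ih =>
    have := cc_succ n
    have := cc_pos n
    linarith

theorem cc51 : cc 51 ≤ 0.000195 := by
  unfold cc
  have : Nat.centralBinom 51 = 399608854866744452032002440112 := by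
    norm_num [Nat.centralBinom_eq_two_mul_choose, Nat.choose]
  rw [this]
  norm_num

theorem cc54 : cc 54 = 24857784491537440929618523018320 * (2 / 9) ^ 54 := by
  unfold cc
  have : Nat.centralBinom 54 = 24857784491537440929618523018320 := by
    norm_num [Nat.centralBinom_eq_two_mul_choose, Nat.choose]
  rw [this]
  norm_num

theorem cc55 : cc 55 ≤ 0.000117 := by
  unfold cc
  have : Nat.centralBinom 55 = 98527218530093856775578873054432 := by
    norm_num [Nat.centralBinom_eq_two_mul_choose, Nat.choose]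
  rw [this]
  norm_num

theorem even_seq {h : ℕ} (hh : 51 ≤ h) : 2 * (h : ℝ) * (4 * h + 3) * cc h / 12 ≤ 0.344 := by
  induction h, hh using Nat.le_induction with
  | base =>
    have := cc51
    norm_num
    linarith
  | succ h hh ih =>
    refine le_trans ?_ ih
    have h1 := cc_succ h
    have h2 := cc_pos h
    have h3 : (51 : ℝ) ≤ h := by exact_mod_cast hh
    push_cast
    have h4 : 2 * ((h : ℝ) + 1) * (4 * (h + 1) + 3) * cc (h + 1) ≤
        2 * ((h : ℝ) + 1) * (4 * (h + 1) + 3) * (8 / 9 * cc h) :=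
      mul_le_mul_of_nonneg_left h1 (by positivity)
    have h5 : 2 * ((h : ℝ) + 1) * (4 * (h + 1) + 3) * (8 / 9) ≤ 2 * (h : ℝ) * (4 * h + 3) := by
      nlinarith
    have h6 : 2 * ((h : ℝ) + 1) * (4 * (h + 1) + 3) * (8 / 9) * cc h ≤
        2 * (h : ℝ) * (4 * h + 3) * cc h := mul_le_mul_of_nonneg_right h5 h2.le
    linarith

theorem odd_seq {h : ℕ} (hh : 55 ≤ h) : (2 * (h : ℝ) + 1) * (4 * h + 5) * cc h / 9 ≤ 0.326 := by
  induction h, hh using Nat.le_induction with
  | base =>
    have := cc55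
    norm_num
    linarith
  | succ h hh ih =>
    refine le_trans ?_ ih
    have h1 := cc_succ h
    have h2 := cc_pos h
    have h3 : (55 : ℝ) ≤ h := by exact_mod_cast hh
    push_cast
    have h4 : (2 * ((h : ℝ) + 1) + 1) * (4 * (h + 1) + 5) * cc (h + 1) ≤
        (2 * ((h : ℝ) + 1) + 1) * (4 * (h + 1) + 5) * (8 / 9 * cc h) :=
      mul_le_mul_of_nonneg_left h1 (by positivity)
    have h5 : (2 * ((h : ℝ) + 1) + 1) * (4 * (h + 1) + 5) * (8 / 9) ≤
        (2 * (h : ℝ) + 1) * (4 * h + 5) := by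
      nlinarith
    have h6 : (2 * ((h : ℝ) + 1) + 1) * (4 * (h + 1) + 5) * (8 / 9) * cc h ≤
        (2 * (h : ℝ) + 1) * (4 * h + 5) * cc h := mul_le_mul_of_nonneg_right h5 h2.le
    linarith

theorem majority {V : Type*} [Fintype V] [DecidableEq V]
    (A : V → V → Prop) [DecidableRel A] {k : ℕ} (hk : 108 ≤ k ∨ (Even k ∧ 102 ≤ k))
    (hloop : ∀ v, ¬ A v v)
    (hout : ∀ v, (univ.filter (fun u => A v u)).card = k)
    (hin : ∀ v, (univ.filter (fun u => A u v)).card = k) :
    ∃ f : V → Fin 3, ∀ v, 2 * (univ.filter (fun u => A v u ∧ f u = f v)).card ≤ k := by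
  have hk5 : 5 ≤ k := by omega
  rcases Nat.even_or_odd' k with ⟨h, rfl | rfl⟩
  · have hh : 51 ≤ h := by omega
    have e1 : 2 * h / 2 = h := by omega
    have hp : (bw (2 * h - 1) (2 * h / 2) : ℝ) / 3 ^ (2 * h - 1) = 3 / 4 * cc h := by
      rw [e1]
      exact bw_even h (by omega)
    have hc := cc_anti hh
    have hc51 := cc51
    have hcp := cc_pos h
    have hs := even_seq hh
    have h3 : (51 : ℝ) ≤ h := by exact_mod_cast hh
    refine exists_of_cond A hk5 hloop hout hin hp (by linarith) (exp_bound _) ?_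
    push_cast
    have h4 : 1 - 4 / (2 * (h : ℝ)) ≥ 98 / 102 := by
      have : 4 / (2 * (h : ℝ)) ≤ 4 / 102 := by
        apply div_le_div_of_nonneg_left (by norm_num) (by norm_num)
        linarith
      linarith
    have h5 : (0.344 : ℝ) ≤ (1 - 0.000195) * (0.36787 * (98 / 102)) := by norm_num
    have h6 : (1 - 0.000195 : ℝ) * (0.36787 * (98 / 102)) ≤
        (1 - 4 / 3 * (3 / 4 * cc h)) * (0.36787 * (1 - 4 / (2 * (h : ℝ)))) := by
      refine mul_le_mul ?_ ?_ (by norm_num) ?_
      · linarith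
      · linarith
      · linarith
    have h7 : 2 * (h : ℝ) * (2 * (2 * h) + 3) * (3 / 4 * cc h) / 9 =
        2 * (h : ℝ) * (4 * h + 3) * cc h / 12 := by ring
    rw [h7]
    linarith
  · have e1 : (2 * h + 1) / 2 = h := by omega
    have hp : (bw (2 * h + 1 - 1) ((2 * h + 1) / 2) : ℝ) / 3 ^ (2 * h + 1 - 1) = cc h := by
      rw [e1, show 2 * h + 1 - 1 = 2 * h by omega]
      exact bw_odd h
    have hodd : 108 ≤ 2 * h + 1 := by
      rcases hk with hk | ⟨hk, -⟩
      · exact hk
      · exfalso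
        obtain ⟨r, hr⟩ := hk
        omega
    rcases Nat.lt_or_ge h 55 with hlt | hh
    · have : h = 54 := by omega
      subst this
      have hcc := cc54
      refine exists_of_cond A hk5 hloop hout hin (R := 0.3687) hp ?_ ?_ ?_
      · rw [hcc]
        norm_num
      · norm_num
      · rw [hcc]
        norm_num
    · have hc := cc_anti hh
      have hc55 := cc55
      have hcp := cc_pos h
      have hs := odd_seq hh
      have h3 : (55 : ℝ) ≤ h := by exact_mod_cast hh
      refine exists_of_cond A hk5 hloop hout hin hp (by linarith) (exp_bound _) ?_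
      push_cast
      have h4 : 1 - 4 / (2 * (h : ℝ) + 1) ≥ 107 / 111 := by
        have : 4 / (2 * (h : ℝ) + 1) ≤ 4 / 111 := by
          apply div_le_div_of_nonneg_left (by norm_num) (by norm_num)
          linarith
        linarith
      have h5 : (0.326 : ℝ) ≤ (1 - 0.0002) * (0.36787 * (107 / 111)) := by norm_num
      have h6 : (1 - 0.0002 : ℝ) * (0.36787 * (107 / 111)) ≤
          (1 - 4 / 3 * cc h) * (0.36787 * (1 - 4 / (2 * (h : ℝ) + 1))) := by
        refine mul_le_mul ?_ ?_ (by norm_num) ?_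
        · linarith
        · linarith
        · linarith
      have h7 : (2 * (h : ℝ) + 1) * (2 * (2 * h + 1) + 3) * cc h / 9 =
          (2 * (h : ℝ) + 1) * (4 * h + 5) * cc h / 9 := by ring
      rw [h7]
      linarith

end Pool.Agent.Lib.MP_725208_co
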