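import Pool.Agent.Lib.MP_725208_co.Step

/-!
# MP_725208_co: the numerical conditions
-/

namespace Pool.Agent.Lib.MP_725208_co

open Finset

/-- `cc h = C(2h, h) (2 / 9) ^ h` -/
noncomputable def cc (h : ℕ) : ℝ := (Nat.centralBinom h : ℝ) * (2 / 9) ^ h

theorem cc_pos (h : ℕ) : 0 < cc h := by
  unfold cc
  have := Nat.centralBinom_pos h
  positivity

theorem cc_succ (h : ℕ) : cc (h + 1) ≤ 8 / 9 * cc h := by
  unfold cc
  have h1 : ((h : ℝ) + 1) * (Nat.centralBinom (h + 1) : ℝ) =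
      2 * (2 * h + 1) * (Nat.centralBinom h : ℝ) := by
    exact_mod_cast Nat.succ_mul_centralBinom_succ h
  have hp : (0 : ℝ) < h + 1 := by positivity
  have hb : (0 : ℝ) < Nat.centralBinom h := by exact_mod_cast Nat.centralBinom_pos h
  have h2 : (Nat.centralBinom (h + 1) : ℝ) ≤ 4 * (Nat.centralBinom h : ℝ) := by
    have : ((h : ℝ) + 1) * (Nat.centralBinom (h + 1) : ℝ) ≤
        ((h : ℝ) + 1) * (4 * (Nat.centralBinom h : ℝ)) := by
      rw [h1]
      nlinarith
    exact le_of_mul_le_mul_left this hp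
  rw [pow_succ]
  have hq : (0 : ℝ) < (2 / 9) ^ h := by positivity
  calc (Nat.centralBinom (h + 1) : ℝ) * ((2 / 9) ^ h * (2 / 9))
      ≤ 4 * (Nat.centralBinom h : ℝ) * ((2 / 9) ^ h * (2 / 9)) :=
        mul_le_mul_of_nonneg_right h2 (by positivity)
    _ = _ := by ring

theorem bw_odd (h : ℕ) : (bw (2 * h) h : ℝ) / 3 ^ (2 * h) = cc h := by
  unfold bw cc
  rw [Nat.centralBinom_eq_two_mul_choose, show 2 * h - h = h by omega, pow_mul]
  push_cast
  rw [div_pow]
  norm_num
  ring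

theorem bw_even (h : ℕ) (hh : 1 ≤ h) : (bw (2 * h - 1) h : ℝ) / 3 ^ (2 * h - 1) = 3 / 4 * cc h := by
  unfold bw cc
  obtain ⟨n, rfl⟩ : ∃ n, h = n + 1 := ⟨h - 1, by omega⟩
  rw [show 2 * (n + 1) - 1 = 2 * n + 1 by omega, show 2 * n + 1 - (n + 1) = n by omega]
  have h1 : Nat.centralBinom (n + 1) = 2 * (2 * n + 1).choose (n + 1) := by
    rw [Nat.centralBinom_eq_two_mul_choose, show 2 * (n + 1) = (2 * n + 1) + 1 by ring,
      Nat.choose_succ_succ']
    have : (2 * n + 1).choose n = (2 * n + 1).choose (n + 1) := by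
      rw [← Nat.choose_symm (show n ≤ 2 * n + 1 by omega)]
      congr 1
      omega
    omega
  rw [h1]
  push_cast
  have h2 : (3 : ℝ) ^ (2 * n + 1) = 3 * 9 ^ n := by
    rw [pow_succ, pow_mul]
    norm_num
    ring
  rw [h2, pow_succ (2 / 9 : ℝ) n, div_pow]
  field_simp
  ring

/-- the weight for `k` in terms of the weight for `k - 1` -/
theorem bw_ratio {k h : ℕ} (hk : 1 ≤ k) (hh : 2 * h ≤ k) :
    (bw k h : ℝ) / 3 ^ k ≤ 4 / 3 * ((bw (k - 1) h : ℝ) / 3 ^ (k - 1)) := by
  obtain ⟨n, rfl⟩ : ∃ n, k = n + 1 := ⟨k - 1, by omega⟩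
  rw [show n + 1 - 1 = n by omega]
  have h1 : n.choose h * (n + 1) = (n + 1).choose h * (n + 1 - h) :=
    Nat.choose_mul_succ_eq n h
  have h2 : (n + 1).choose h ≤ 2 * n.choose h := by
    have h3 : (n + 1).choose h * (n + 1) ≤ (2 * n.choose h) * (n + 1) := by
      calc (n + 1).choose h * (n + 1) ≤ (n + 1).choose h * (2 * (n + 1 - h)) :=
            Nat.mul_le_mul_left _ (by omega)
        _ = 2 * (n.choose h * (n + 1)) := by rw [h1]; ring
        _ = _ := by ring
    exact Nat.le_of_mul_le_mul_right h3 (by omega)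
  have h4 : bw (n + 1) h ≤ 4 * bw n h := by
    unfold bw
    by_cases hn : h ≤ n
    · rw [show n + 1 - h = (n - h) + 1 by omega, pow_succ]
      calc (n + 1).choose h * (2 ^ (n - h) * 2) ≤ (2 * n.choose h) * (2 ^ (n - h) * 2) :=
            Nat.mul_le_mul_right _ h2
        _ = _ := by ring
    · have : n + 1 - h ≤ 1 := by omega
      have h5 : h = 1 ∨ h = 0 := by omega
      omega
  have h5 : (bw (n + 1) h : ℝ) ≤ 4 * bw n h := by exact_mod_cast h4
  rw [pow_succ, div_le_iff₀ (by positivity)]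
  have h6 : 4 / 3 * ((bw n h : ℝ) / 3 ^ n) * (3 ^ n * 3) = 4 * bw n h := by
    field_simp
  rw [h6]
  exact h5

/-- a single numerical condition -/
theorem exists_of_cond {V : Type*} [Fintype V] [DecidableEq V]
    (A : V → V → Prop) [DecidableRel A] {k : ℕ} (hk : 5 ≤ k) (hloop : ∀ v, ¬ A v v)
    (hout : ∀ v, (univ.filter (fun u => A v u)).card = k)
    (hin : ∀ v, (univ.filter (fun u => A u v)).card = k)
    {p R : ℝ} (hp : (bw (k - 1) (k / 2) : ℝ) / 3 ^ (k - 1) = p) (hp1 : p < 3 / 4)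
    (hR : R ≤ (1 - 1 / (2 * (k : ℝ) + 3)) ^ (2 * (k + 1)))
    (hc : (k : ℝ) * (2 * k + 3) * p / 9 ≤ (1 - 4 / 3 * p) * (R * (1 - 4 / k))) :
    ∃ f : V → Fin 3, ∀ v, 2 * (univ.filter (fun u => A v u ∧ f u = f v)).card ≤ k := by
  have hk0 : (5 : ℝ) ≤ k := by exact_mod_cast hk
  have hkpos : (0 : ℝ) < k := by linarith
  have hp0 : 0 < p := by
    rw [← hp]
    have : 0 < bw (k - 1) (k / 2) := Nat.mul_pos (Nat.choose_pos (by omega)) (by positivity)
    have : (0 : ℝ) < bw (k - 1) (k / 2) := by exact_mod_cast this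
    positivity
  set q : ℝ := (bw k (k / 2) : ℝ) / 3 ^ k with hq
  have hq0 : 0 < q := by
    have : 0 < bw k (k / 2) := Nat.mul_pos (Nat.choose_pos (by omega)) (by positivity)
    have : (0 : ℝ) < bw k (k / 2) := by exact_mod_cast this
    positivity
  have hqp : q ≤ 4 / 3 * p := by
    rw [hq, ← hp]
    exact bw_ratio (by omega) (by omega)
  have hq1 : q < 1 := by linarith
  have hp1' : p < 1 := by linarith
  set D : ℝ := 1 - 4 / 3 * p with hD
  have hD0 : 0 < D := by linarith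
  set a : ℝ := 1 / (2 * (k : ℝ) + 3) with ha
  have ha0 : 0 < a := by positivity
  have ha1 : a < 1 := by
    rw [ha, div_lt_one (by positivity)]
    linarith
  set o : ℝ := 4 / k * a with ho
  have ho0 : 0 < o := by positivity
  have h4k : 4 / (k : ℝ) < 1 := by
    rw [div_lt_one hkpos]
    linarith
  have ho1 : o < 1 := by
    have : o < 1 * 1 := mul_lt_mul'' h4k ha1 (by positivity) ha0.le
    simpa using this
  -- the factor coming from the owners
  have hbern : 1 - 4 / (k : ℝ) ≤ (1 - o) ^ (2 * (k + 1)) := by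
    have h1 := one_add_mul_le_pow (a := -o) (by linarith) (2 * (k + 1))
    have h2 : ((2 * (k + 1) : ℕ) : ℝ) * o ≤ 4 / k := by
      rw [ho, ha]
      push_cast
      have : (2 * ((k : ℝ) + 1)) * (4 / k * (1 / (2 * k + 3))) =
          (4 / k) * ((2 * (k + 1)) / (2 * k + 3)) := by
        field_simp
      rw [this]
      refine mul_le_of_le_one_right (by positivity) ?_
      rw [div_le_one (by positivity)]
      linarith
    calc 1 - 4 / (k : ℝ) ≤ 1 + ((2 * (k + 1) : ℕ) : ℝ) * (-o) := by linarith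
      _ ≤ (1 + -o) ^ (2 * (k + 1)) := h1
      _ = _ := by ring_nf
  have hR2 : R * (1 - 4 / k) ≤ (1 - a) ^ (2 * (k + 1)) * (1 - o) ^ (2 * (k + 1)) := by
    refine mul_le_mul hR hbern (by linarith) (pow_nonneg (by linarith) _)
  set κ : ℝ := (1 - a) ^ (2 * (k + 1)) * (1 - o) ^ (2 * (k + 1)) with hκ
  have hmain : (k : ℝ) * p / 9 ≤ D * (a * κ) := by
    have h1 : (k : ℝ) * (2 * k + 3) * p / 9 ≤ D * κ :=
      le_trans hc (mul_le_mul_of_nonneg_left hR2 hD0.le)
    have h2 : (k : ℝ) * p / 9 = a * ((k : ℝ) * (2 * k + 3) * p / 9) := by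
      rw [ha]
      field_simp
    rw [h2]
    calc a * ((k : ℝ) * (2 * k + 3) * p / 9) ≤ a * (D * κ) :=
          mul_le_mul_of_nonneg_left h1 ha0.le
      _ = _ := by ring
  refine exists_of_numeric A (by omega) hloop hout hin (a := a) (o := o)
    (ρA := p / (1 - p)) (ρB := q / (1 - q)) ha0 ha1 ho0 ho1
    (div_nonneg hp0.le (by linarith)) (div_nonneg hq0.le (by linarith)) ?_ ?_ ?_ ?_
  · have h1 : (bw (k - 1) (k / 2) : ℝ) = p * 3 ^ (k - 1) := by
      rw [← hp]
      field_simp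
    rw [h1]
    have h2 : (1 : ℝ) - p ≠ 0 := by linarith
    have h3 : p * 3 ^ (k - 1) * (1 + p / (1 - p)) = p / (1 - p) * 3 ^ (k - 1) := by
      field_simp
      ring
    rw [h3]
  · have h1 : (bw k (k / 2) : ℝ) = q * 3 ^ k := by
      rw [hq]
      field_simp
    rw [h1]
    have h2 : (1 : ℝ) - q ≠ 0 := by linarith
    have h3 : q * 3 ^ k * (1 + q / (1 - q)) = q / (1 - q) * 3 ^ k := by
      field_simp
      ring
    rw [h3]
  · have h1 : p / (1 - p) ≤ p / D := by
      refine div_le_div_of_nonneg_left hp0.le hD0 (by linarith)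
    have h2 : (k : ℝ) * (p / (1 - p)) / 9 ≤ (k * p / 9) / D := by
      calc (k : ℝ) * (p / (1 - p)) / 9 ≤ (k : ℝ) * (p / D) / 9 := by gcongr
        _ = _ := by field_simp
    refine le_trans h2 ?_
    rw [div_le_iff₀ hD0]
    calc (k : ℝ) * p / 9 ≤ D * (a * κ) := hmain
      _ = _ := by ring
  · have h1 : q / (1 - q) ≤ (4 / 3 * p) / D := by
      refine div_le_div₀ (by positivity) hqp hD0 ?_
      rw [hD]
      linarith
    have h2 : q / (1 - q) / 3 ≤ (4 / k * (k * p / 9)) / D := by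
      calc q / (1 - q) / 3 ≤ ((4 / 3 * p) / D) / 3 := by gcongr
        _ = _ := by
          field_simp
          norm_num
    refine le_trans h2 ?_
    rw [div_le_iff₀ hD0, ho]
    calc 4 / (k : ℝ) * (k * p / 9) ≤ 4 / k * (D * (a * κ)) :=
          mul_le_mul_of_nonneg_left hmain (by positivity)
      _ = _ := by ring

end Pool.Agent.Lib.MP_725208_co
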