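import Pool.Agent.Lib.MP_725208_co.Count

/-!
# MP_725208_co: the inductive step

Activating one more pair keeps at least the fraction `1 - a` (or `1 - o`) of the colourings.
-/

namespace Pool.Agent.Lib.MP_725208_co

open Finset

variable {V : Type*} [Fintype V] [DecidableEq V]
variable (A : V → V → Prop) [DecidableRel A] (h : ℕ)

theorem drop_T {a : ℝ} (ha0 : 0 ≤ a) (ha1 : a ≤ 1) (N : ℕ)
    (HA : ∀ O T : Finset (V × Fin 3), O.card + T.card < N → ∀ p, p ∉ T →
      (1 - a) * (g A h O T : ℝ) ≤ g A h O (insert p T))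
    (O T X : Finset (V × Fin 3)) (hN : O.card + T.card ≤ N) :
    (1 - a) ^ X.card * (g A h O (T \ X) : ℝ) ≤ g A h O T := by
  induction X using Finset.induction_on with
  | empty => simp
  | insert x X hx ih =>
    rw [card_insert_of_notMem hx, pow_succ, mul_assoc]
    refine le_trans ?_ ih
    refine mul_le_mul_of_nonneg_left ?_ (pow_nonneg (by linarith) _)
    by_cases hxT : x ∈ T
    · have hx' : x ∉ T \ insert x X := by simp
      have h1 : insert x (T \ insert x X) = T \ X := by
        ext y
        simp only [mem_insert, mem_sdiff]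
        by_cases hy : y = x
        · subst hy
          simp [hxT, hx]
        · simp [hy]
      have h2 : (T \ insert x X).card < T.card := by
        refine card_lt_card (Finset.ssubset_iff_subset_ne.2 ⟨sdiff_subset, fun he => ?_⟩)
        rw [he] at hx'
        exact hx' hxT
      have := HA O (T \ insert x X) (by omega) x hx'
      rwa [h1] at this
    · have h1 : T \ insert x X = T \ X := by
        ext y
        simp only [mem_insert, mem_sdiff]
        by_cases hy : y = x
        · subst hy
          simp [hxT]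
        · simp [hy]
      rw [h1]
      have : (0 : ℝ) ≤ g A h O (T \ X) := Nat.cast_nonneg _
      nlinarith

theorem drop_O {o : ℝ} (ho0 : 0 ≤ o) (ho1 : o ≤ 1) (N : ℕ)
    (HB : ∀ O T : Finset (V × Fin 3), O.card + T.card < N → ∀ p, p ∉ O →
      (1 - o) * (g A h O T : ℝ) ≤ g A h (insert p O) T)
    (O T X : Finset (V × Fin 3)) (hN : O.card + T.card ≤ N) :
    (1 - o) ^ X.card * (g A h (O \ X) T : ℝ) ≤ g A h O T := by
  induction X using Finset.induction_on with
  | empty => simp
  | insert x X hx ih =>
    rw [card_insert_of_notMem hx, pow_succ, mul_assoc]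
    refine le_trans ?_ ih
    refine mul_le_mul_of_nonneg_left ?_ (pow_nonneg (by linarith) _)
    by_cases hxT : x ∈ O
    · have hx' : x ∉ O \ insert x X := by simp
      have h1 : insert x (O \ insert x X) = O \ X := by
        ext y
        simp only [mem_insert, mem_sdiff]
        by_cases hy : y = x
        · subst hy
          simp [hxT, hx]
        · simp [hy]
      have h2 : (O \ insert x X).card < O.card := by
        refine card_lt_card (Finset.ssubset_iff_subset_ne.2 ⟨sdiff_subset, fun he => ?_⟩)
        rw [he] at hx'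
        exact hx' hxT
      have := HB (O \ insert x X) T (by omega) x hx'
      rwa [h1] at this
    · have h1 : O \ insert x X = O \ X := by
        ext y
        simp only [mem_insert, mem_sdiff]
        by_cases hy : y = x
        · subst hy
          simp [hxT]
        · simp [hy]
      rw [h1]
      have : (0 : ℝ) ≤ g A h (O \ X) T := Nat.cast_nonneg _
      nlinarith

/-- the pairs to be dropped -/
def dropSet (W : Finset V) (c : Fin 3) : Finset (V × Fin 3) :=
  W ×ˢ (univ.filter (fun b => b ≠ c))

theorem dropSet_card (W : Finset V) (c : Fin 3) : (dropSet W c).card = 2 * W.card := by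
  unfold dropSet
  rw [card_product]
  have h4 : (univ.filter (fun b : Fin 3 => b ≠ c)).card = 2 := by
    fin_cases c <;> decide
  rw [h4]
  ring

theorem free_drop (O T : Finset (V × Fin 3)) (W : Finset V) (c : Fin 3) {z : V} (hz : z ∈ W) :
    Free (O \ dropSet W c) (T \ dropSet W c) c z := by
  intro b hb
  have : (z, b) ∈ dropSet W c := by
    simp [dropSet, hz, hb]
  simp [this]

theorem drop_all {a o : ℝ} (ha0 : 0 ≤ a) (ha1 : a ≤ 1) (ho0 : 0 ≤ o) (ho1 : o ≤ 1) (N : ℕ)
    (HA : ∀ O T : Finset (V × Fin 3), O.card + T.card < N → ∀ p, p ∉ T →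
      (1 - a) * (g A h O T : ℝ) ≤ g A h O (insert p T))
    (HB : ∀ O T : Finset (V × Fin 3), O.card + T.card < N → ∀ p, p ∉ O →
      (1 - o) * (g A h O T : ℝ) ≤ g A h (insert p O) T)
    (O T : Finset (V × Fin 3)) (W : Finset V) (c : Fin 3) (n : ℕ) (hW : W.card ≤ n)
    (hN : O.card + T.card ≤ N) :
    (1 - a) ^ (2 * n) * (1 - o) ^ (2 * n) *
      (g A h (O \ dropSet W c) (T \ dropSet W c) : ℝ) ≤ g A h O T := by
  have hX : (dropSet W c).card ≤ 2 * n := by
    rw [dropSet_card]
    omega
  have h1 := drop_T A h ha0 ha1 N HA (O \ dropSet W c) T (dropSet W c)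
    (le_trans (Nat.add_le_add_right (card_le_card sdiff_subset) _) hN)
  have h2 := drop_O A h ho0 ho1 N HB O T (dropSet W c) hN
  have hg : (0 : ℝ) ≤ g A h (O \ dropSet W c) (T \ dropSet W c) := Nat.cast_nonneg _
  have hg2 : (0 : ℝ) ≤ g A h (O \ dropSet W c) T := Nat.cast_nonneg _
  have p1 : (1 - a) ^ (2 * n) ≤ (1 - a) ^ (dropSet W c).card :=
    pow_le_pow_of_le_one (by linarith) (by linarith) hX
  have p2 : (1 - o) ^ (2 * n) ≤ (1 - o) ^ (dropSet W c).card :=
    pow_le_pow_of_le_one (by linarith) (by linarith) hX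
  have q1 : (0 : ℝ) ≤ (1 - a) ^ (2 * n) := pow_nonneg (by linarith) _
  have q2 : (0 : ℝ) ≤ (1 - o) ^ (2 * n) := pow_nonneg (by linarith) _
  calc (1 - a) ^ (2 * n) * (1 - o) ^ (2 * n) *
        (g A h (O \ dropSet W c) (T \ dropSet W c) : ℝ)
      = (1 - o) ^ (2 * n) * ((1 - a) ^ (2 * n) *
        (g A h (O \ dropSet W c) (T \ dropSet W c) : ℝ)) := by ring
    _ ≤ (1 - o) ^ (2 * n) * ((1 - a) ^ (dropSet W c).card *
        (g A h (O \ dropSet W c) (T \ dropSet W c) : ℝ)) :=
        mul_le_mul_of_nonneg_left (mul_le_mul_of_nonneg_right p1 hg) q2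
    _ ≤ (1 - o) ^ (2 * n) * (g A h (O \ dropSet W c) T : ℝ) :=
        mul_le_mul_of_nonneg_left h1 q2
    _ ≤ (1 - o) ^ (dropSet W c).card * (g A h (O \ dropSet W c) T : ℝ) :=
        mul_le_mul_of_nonneg_right p2 hg2
    _ ≤ _ := h2

theorem lev_update_of_notMem {Y : Finset V} {c b : Fin 3} {f : V → Fin 3} {z : V}
    (hzY : z ∉ Y) : lev Y c (Function.update f z b) = lev Y c f := by
  unfold lev
  congr 1
  refine filter_congr fun y hy => ?_
  have : y ≠ z := fun he => hzY (he ▸ hy)
  rw [Function.update_of_ne this]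

/-- real form of `lv_bound` -/
theorem lv_real {O T : Finset (V × Fin 3)} {c : Fin 3} {Y : Finset V}
    (hY : ∀ z ∈ Y, Free O T c z) {m : ℕ} (hm : Y.card ≤ m) (hhm : h ≤ m) (hm2 : m ≤ 2 * h + 1)
    {ρ : ℝ} (hρ0 : 0 ≤ ρ) (hρ : (bw m h : ℝ) * (1 + ρ) ≤ ρ * 3 ^ m) :
    ((Lv A h O T Y c h).card : ℝ) ≤ ρ * g A h O T := by
  have h1 := lv_bound A h hY hm hhm hm2
  have h2 : ((Lv A h O T Y c h).card : ℝ) * 3 ^ m
      ≤ bw m h * ((g A h O T : ℝ) + (Lv A h O T Y c h).card) := by
    exact_mod_cast h1
  set F : ℝ := ((Lv A h O T Y c h).card : ℝ) with hF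
  set G : ℝ := (g A h O T : ℝ) with hG
  set b : ℝ := (bw m h : ℝ) with hb
  have hb0 : 0 < b := by
    rw [hb]
    have : 0 < bw m h := Nat.mul_pos (Nat.choose_pos hhm) (by positivity)
    exact_mod_cast this
  have hG0 : 0 ≤ G := Nat.cast_nonneg _
  have h3 : 0 < (3 : ℝ) ^ m := by positivity
  have hρ1 : 0 < ρ := by
    rcases hρ0.lt_or_eq with h4 | h4
    · exact h4
    · rw [← h4] at hρ
      simp only [add_zero, mul_one, zero_mul] at hρ
      linarith
  by_contra hcon
  push Not at hcon
  -- F > ρ G
  have h5 : b * (1 + ρ) * F ≤ ρ * 3 ^ m * F :=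
    mul_le_mul_of_nonneg_right hρ (by positivity)
  have h6 : ρ * (F * 3 ^ m) ≤ ρ * (b * (G + F)) := mul_le_mul_of_nonneg_left h2 hρ1.le
  have h7 : b * (1 + ρ) * F ≤ ρ * (b * (G + F)) := by
    calc b * (1 + ρ) * F ≤ ρ * 3 ^ m * F := h5
      _ = ρ * (F * 3 ^ m) := by ring
      _ ≤ _ := h6
  have h8 : b * F ≤ b * (ρ * G) := by linarith
  have h9 := le_of_mul_le_mul_left h8 hb0
  linarith

theorem step {k : ℕ} (hh : h = k / 2) (hk : 1 ≤ k) (hloop : ∀ v, ¬ A v v)
    (hout : ∀ v, (univ.filter (fun u => A v u)).card = k)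
    (hin : ∀ v, (univ.filter (fun u => A u v)).card = k)
    {a o ρA ρB : ℝ} (ha0 : 0 < a) (ha1 : a < 1) (ho0 : 0 < o) (ho1 : o < 1)
    (hA0 : 0 ≤ ρA) (hB0 : 0 ≤ ρB)
    (hρA : (bw (k - 1) h : ℝ) * (1 + ρA) ≤ ρA * 3 ^ (k - 1))
    (hρB : (bw k h : ℝ) * (1 + ρB) ≤ ρB * 3 ^ k)
    (hA : (k : ℝ) * ρA / 9 ≤ a * ((1 - a) ^ (2 * (k + 1)) * (1 - o) ^ (2 * (k + 1))))
    (hB : ρB / 3 ≤ o * ((1 - a) ^ (2 * (k + 1)) * (1 - o) ^ (2 * (k + 1)))) (N : ℕ) :
    ∀ O T : Finset (V × Fin 3), O.card + T.card = N →
      (∀ p, p ∉ T → (1 - a) * (g A h O T : ℝ) ≤ g A h O (insert p T)) ∧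
      (∀ p, p ∉ O → (1 - o) * (g A h O T : ℝ) ≤ g A h (insert p O) T) := by
  induction N using Nat.strong_induction_on with
  | _ N IH =>
  intro O T hN
  have HA : ∀ O T : Finset (V × Fin 3), O.card + T.card < N → ∀ p, p ∉ T →
      (1 - a) * (g A h O T : ℝ) ≤ g A h O (insert p T) :=
    fun O T hlt p hp => (IH _ hlt O T rfl).1 p hp
  have HB : ∀ O T : Finset (V × Fin 3), O.card + T.card < N → ∀ p, p ∉ O →
      (1 - o) * (g A h O T : ℝ) ≤ g A h (insert p O) T :=
    fun O T hlt p hp => (IH _ hlt O T rfl).2 p hp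
  set κ : ℝ := (1 - a) ^ (2 * (k + 1)) * (1 - o) ^ (2 * (k + 1)) with hκ
  have hκ0 : 0 < κ := mul_pos (pow_pos (by linarith) _) (pow_pos (by linarith) _)
  have hG0 : (0 : ℝ) ≤ g A h O T := Nat.cast_nonneg _
  constructor
  · rintro ⟨y, c⟩ hp
    -- the sets
    set Y : V → Finset V := fun w => univ.filter (fun z => A w z ∧ (z, c) ∈ T) with hYdef
    set S : V → Finset (V → Fin 3) := fun w => univ.filter
      (fun f => Good A h O T f ∧ f w = c ∧ f y = c ∧ lev (Y w) c f = h) with hS
    have hsub : univ.filter (fun f => Good A h O T f)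
        ⊆ univ.filter (fun f => Good A h O (insert (y, c) T) f) ∪
          (univ.filter (fun u => A u y)).biUnion S := by
      intro f hf
      simp only [mem_filter, mem_univ, true_and, mem_union, mem_biUnion, hS] at hf ⊢
      by_cases hg : Good A h O (insert (y, c) T) f
      · exact Or.inl hg
      · right
        unfold Good at hg
        push Not at hg
        obtain ⟨u, hu, hlt⟩ := hg
        have hle := hf u hu
        have hkey : A u y ∧ f u = c ∧ f y = c := by
          by_contra hcon
          have : cnt A (insert (y, c) T) f u (f u) ≤ cnt A T f u (f u) := by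
            refine card_le_card fun z hz => ?_
            simp only [mem_filter, mem_univ, true_and, mem_insert, Prod.mk.injEq] at hz ⊢
            refine ⟨hz.1, ?_, hz.2.2⟩
            rcases hz.2.1 with ⟨h1, h2⟩ | h1
            · exfalso
              refine hcon ⟨h1 ▸ hz.1, h2, ?_⟩
              rw [← h1, hz.2.2, h2]
            · exact h1
          omega
        obtain ⟨h1, h2, h3⟩ := hkey
        refine ⟨u, h1, hf, h2, h3, ?_⟩
        have h4 : lev (Y u) c f = cnt A T f u c := by
          unfold lev cnt
          congr 1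
          ext z
          simp only [hYdef, mem_filter, mem_univ, true_and]
          tauto
        have h5 : cnt A (insert (y, c) T) f u c ≤ cnt A T f u c + 1 := by
          have : (univ.filter (fun z => A u z ∧ (z, c) ∈ insert (y, c) T ∧ f z = c))
              ⊆ insert y (univ.filter (fun z => A u z ∧ (z, c) ∈ T ∧ f z = c)) := by
            intro z hz
            simp only [mem_filter, mem_univ, true_and, mem_insert, Prod.mk.injEq] at hz ⊢
            rcases hz.2.1 with ⟨h1, -⟩ | h1
            · exact Or.inl h1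
            · exact Or.inr ⟨hz.1, h1, hz.2.2⟩
          exact le_trans (card_le_card this) (card_insert_le _ _)
        rw [h2] at hle hlt
        omega
    have hcard : g A h O T ≤ g A h O (insert (y, c) T)
        + ∑ w ∈ univ.filter (fun u => A u y), (S w).card := by
      unfold g
      refine le_trans (card_le_card hsub) (le_trans (card_union_le _ _) ?_)
      exact Nat.add_le_add_left card_biUnion_le _
    have hSw : ∀ w ∈ univ.filter (fun u => A u y), ((S w).card : ℝ)
        ≤ ρA * g A h O T / (9 * κ) := by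
      intro w hw
      have hwy : A w y := (mem_filter.1 hw).2
      have hne : w ≠ y := fun he => hloop y (he ▸ hwy)
      have hwY : w ∉ Y w := fun hm => hloop w (mem_filter.1 hm).2.1
      have hyY : y ∉ Y w := fun hm => hp (mem_filter.1 hm).2.2
      have hYc : (Y w).card + 1 ≤ k := by
        rw [← hout w, ← card_insert_of_notMem hyY]
        refine card_le_card fun z hz => ?_
        simp only [mem_insert, mem_filter, mem_univ, true_and] at hz ⊢
        rcases hz with rfl | hz
        · exact hwy
        · exact (mem_filter.1 hz).2.1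
      set W : Finset V := insert w (insert y (Y w)) with hW
      have hWc : W.card ≤ k + 1 := by
        refine le_trans (card_insert_le _ _) ?_
        have := card_insert_le y (Y w)
        omega
      have hd := drop_all A h ha0.le ha1.le ho0.le ho1.le N HA HB O T W c (k + 1) hWc hN.le
      set O' := O \ dropSet W c with hO'
      set T' := T \ dropSet W c with hT'
      have hfree : ∀ z ∈ W, Free O' T' c z := fun z hz => free_drop O T W c hz
      have e1 := third A h (hfree w (mem_insert_self _ _))
        (fun f => lev (Y w) c f = h ∧ f y = c) (by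
          rintro f b ⟨h1, h2⟩
          refine ⟨?_, ?_⟩
          · rw [lev_update_of_notMem hwY]
            exact h1
          · rw [Function.update_of_ne (Ne.symm hne)]
            exact h2)
      have e2 := third A h (hfree y (mem_insert_of_mem (mem_insert_self _ _)))
        (fun f => lev (Y w) c f = h) (by
          intro f b h1
          rw [lev_update_of_notMem hyY]
          exact h1)
      have e3 : (S w).card ≤ (univ.filter (fun f => Good A h O' T' f ∧
          (lev (Y w) c f = h ∧ f y = c) ∧ f w = c)).card := by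
        refine card_le_card fun f hf => ?_
        simp only [hS, mem_filter, mem_univ, true_and] at hf ⊢
        exact ⟨good_mono A h sdiff_subset sdiff_subset hf.1, ⟨hf.2.2.2, hf.2.2.1⟩, hf.2.1⟩
      have e4 : 9 * (S w).card ≤ (Lv A h O' T' (Y w) c h).card := by
        unfold Lv
        omega
      have e5 := lv_real A h (O := O') (T := T') (c := c) (Y := Y w)
        (fun z hz => hfree z (mem_insert_of_mem (mem_insert_of_mem hz)))
        (m := k - 1) (by omega) (by omega) (by omega) hA0 hρA
      have e6 : (9 : ℝ) * (S w).card ≤ ρA * g A h O' T' := by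
        refine le_trans ?_ e5
        exact_mod_cast e4
      rw [le_div_iff₀ (by positivity)]
      calc ((S w).card : ℝ) * (9 * κ) = κ * (9 * (S w).card) := by ring
        _ ≤ κ * (ρA * g A h O' T') := mul_le_mul_of_nonneg_left e6 hκ0.le
        _ = ρA * (κ * g A h O' T') := by ring
        _ ≤ ρA * g A h O T := mul_le_mul_of_nonneg_left hd hA0
    have hsum : ((∑ w ∈ univ.filter (fun u => A u y), (S w).card : ℕ) : ℝ)
        ≤ a * g A h O T := by
      push_cast
      refine le_trans (sum_le_sum hSw) ?_
      rw [sum_const, hin y, nsmul_eq_mul]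
      have : (k : ℝ) * (ρA * g A h O T / (9 * κ)) = (k * ρA / 9) * g A h O T / κ := by
        field_simp
      rw [this, div_le_iff₀ hκ0]
      calc (k : ℝ) * ρA / 9 * g A h O T ≤ (a * κ) * g A h O T :=
            mul_le_mul_of_nonneg_right hA hG0
        _ = _ := by ring
    have : (g A h O T : ℝ) ≤ g A h O (insert (y, c) T)
        + ((∑ w ∈ univ.filter (fun u => A u y), (S w).card : ℕ) : ℝ) := by
      exact_mod_cast hcard
    linarith
  · rintro ⟨w, c⟩ hp
    set Y : Finset V := univ.filter (fun z => A w z ∧ (z, c) ∈ T) with hYdef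
    set S : Finset (V → Fin 3) := univ.filter
      (fun f => Good A h O T f ∧ h < lev Y c f ∧ f w = c) with hS
    have hsub : univ.filter (fun f => Good A h O T f)
        ⊆ univ.filter (fun f => Good A h (insert (w, c) O) T f) ∪ S := by
      intro f hf
      simp only [mem_filter, mem_univ, true_and, mem_union, hS] at hf ⊢
      by_cases hg : Good A h (insert (w, c) O) T f
      · exact Or.inl hg
      · right
        unfold Good at hg
        push Not at hg
        obtain ⟨u, hu, hlt⟩ := hg
        have hkey : u = w ∧ f u = c := by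
          by_contra hcon
          rw [mem_insert, Prod.mk.injEq] at hu
          rcases hu with h1 | h1
          · exact hcon h1
          · have := hf u h1
            omega
        obtain ⟨rfl, h2⟩ := hkey
        rw [h2] at hlt
        refine ⟨hf, ?_, h2⟩
        have h4 : lev Y c f = cnt A T f u c := by
          unfold lev cnt
          congr 1
          ext z
          simp only [hYdef, mem_filter, mem_univ, true_and]
          tauto
        omega
    have hcard : g A h O T ≤ g A h (insert (w, c) O) T + S.card := by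
      unfold g
      exact le_trans (card_le_card hsub) (card_union_le _ _)
    have hwY : w ∉ Y := fun hm => hloop w (mem_filter.1 hm).2.1
    have hYc : Y.card ≤ k := by
      rw [← hout w]
      refine card_le_card fun z hz => ?_
      simp only [hYdef, mem_filter, mem_univ, true_and] at hz ⊢
      exact hz.1
    set W : Finset V := insert w Y with hW
    have hWc : W.card ≤ k + 1 := le_trans (card_insert_le _ _) (by omega)
    have hd := drop_all A h ha0.le ha1.le ho0.le ho1.le N HA HB O T W c (k + 1) hWc hN.le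
    set O' := O \ dropSet W c with hO'
    set T' := T \ dropSet W c with hT'
    have hfree : ∀ z ∈ W, Free O' T' c z := fun z hz => free_drop O T W c hz
    have e1 := third A h (hfree w (mem_insert_self _ _))
      (fun f => h < lev Y c f) (by
        intro f b h1
        rw [lev_update_of_notMem hwY]
        exact h1)
    have hfreeY : ∀ z ∈ Y, Free O' T' c z := fun z hz => hfree z (mem_insert_of_mem hz)
    have e2 := lv_above A h hfreeY (by omega)
    have e3 : S.card ≤ (univ.filter (fun f => Good A h O' T' f ∧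
        h < lev Y c f ∧ f w = c)).card := by
      refine card_le_card fun f hf => ?_
      simp only [hS, mem_filter, mem_univ, true_and] at hf ⊢
      exact ⟨good_mono A h sdiff_subset sdiff_subset hf.1, hf.2.1, hf.2.2⟩
    have e4 : 3 * S.card ≤ (Lv A h O' T' Y c h).card := by omega
    have e5 := lv_real A h (O := O') (T := T') (c := c) (Y := Y) hfreeY
      (m := k) hYc (by omega) (by omega) hB0 hρB
    have e6 : (3 : ℝ) * S.card ≤ ρB * g A h O' T' := by
      refine le_trans ?_ e5
      exact_mod_cast e4
    have hsum : (S.card : ℝ) ≤ o * g A h O T := by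
      have h1 : κ * (3 * S.card) ≤ ρB * g A h O T := by
        calc κ * (3 * (S.card : ℝ)) ≤ κ * (ρB * g A h O' T') :=
              mul_le_mul_of_nonneg_left e6 hκ0.le
          _ = ρB * (κ * g A h O' T') := by ring
          _ ≤ ρB * g A h O T := mul_le_mul_of_nonneg_left hd hB0
      have h2 : ρB * g A h O T ≤ 3 * (o * κ) * g A h O T := by
        refine mul_le_mul_of_nonneg_right ?_ hG0
        linarith
      have h3 : κ * (3 * (S.card : ℝ)) ≤ κ * (3 * (o * g A h O T)) := by
        calc κ * (3 * (S.card : ℝ)) ≤ 3 * (o * κ) * g A h O T := le_trans h1 h2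
          _ = _ := by ring
      have := le_of_mul_le_mul_left h3 hκ0
      linarith
    have : (g A h O T : ℝ) ≤ g A h (insert (w, c) O) T + (S.card : ℝ) := by
      exact_mod_cast hcard
    linarith

/-- existence of a majority colouring from the numerical conditions -/
theorem exists_of_numeric {k : ℕ} (hk : 1 ≤ k) (hloop : ∀ v, ¬ A v v)
    (hout : ∀ v, (univ.filter (fun u => A v u)).card = k)
    (hin : ∀ v, (univ.filter (fun u => A u v)).card = k)
    {a o ρA ρB : ℝ} (ha0 : 0 < a) (ha1 : a < 1) (ho0 : 0 < o) (ho1 : o < 1)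
    (hA0 : 0 ≤ ρA) (hB0 : 0 ≤ ρB)
    (hρA : (bw (k - 1) (k / 2) : ℝ) * (1 + ρA) ≤ ρA * 3 ^ (k - 1))
    (hρB : (bw k (k / 2) : ℝ) * (1 + ρB) ≤ ρB * 3 ^ k)
    (hA : (k : ℝ) * ρA / 9 ≤ a * ((1 - a) ^ (2 * (k + 1)) * (1 - o) ^ (2 * (k + 1))))
    (hB : ρB / 3 ≤ o * ((1 - a) ^ (2 * (k + 1)) * (1 - o) ^ (2 * (k + 1)))) :
    ∃ f : V → Fin 3, ∀ v, 2 * (univ.filter (fun u => A v u ∧ f u = f v)).card ≤ k := by
  have hs := step A (k / 2) rfl hk hloop hout hin ha0 ha1 ho0 ho1 hA0 hB0 hρA hρB hA hB
  set h := k / 2 with hh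
  have h1 := drop_T A h ha0.le ha1.le (3 * Fintype.card V + 3 * Fintype.card V + 1)
    (fun O T _ p hp => (hs _ O T rfl).1 p hp) univ univ univ (by
      simp only [card_univ, Fintype.card_prod, Fintype.card_fin]
      omega)
  have h2 := drop_O A h ho0.le ho1.le (3 * Fintype.card V + 3 * Fintype.card V + 1)
    (fun O T _ p hp => (hs _ O T rfl).2 p hp) univ ∅ univ (by
      simp only [card_univ, Fintype.card_prod, Fintype.card_fin, card_empty]
      omega)
  rw [sdiff_self] at h1 h2
  have h3 : (0 : ℝ) < g A h ∅ ∅ := by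
    have : 0 < g A h ∅ ∅ := by
      unfold g
      refine card_pos.2 ⟨fun _ => 0, ?_⟩
      simp only [mem_filter, mem_univ, true_and]
      intro u hu
      simp at hu
    exact_mod_cast this
  have h4 : (0 : ℝ) < g A h univ ∅ :=
    lt_of_lt_of_le (mul_pos (pow_pos (by linarith) _) h3) h2
  have h5 : (0 : ℝ) < g A h univ univ :=
    lt_of_lt_of_le (mul_pos (pow_pos (by linarith) _) h4) h1
  have h6 : 0 < g A h univ univ := by exact_mod_cast h5
  obtain ⟨f, hf⟩ := card_pos.1 h6
  simp only [mem_filter, mem_univ, true_and] at hf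
  refine ⟨f, fun v => ?_⟩
  have := hf v (mem_univ _)
  unfold cnt at this
  simp only [mem_univ, true_and] at this
  omega

end Pool.Agent.Lib.MP_725208_co
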